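import Pool.Agent.W477.GM.Stms

set_option maxHeartbeats 1000000

namespace Pool.Agent.W477.GM.Kap816

open Pool.Agent.W477.GM
open Cardinal Ordinal

theorem le_ord_beth (o : Ordinal.{0}) : o ≤ (beth o).ord := by
  have h : StrictMono (fun o : Ordinal.{0} => (beth o).ord) :=
    Cardinal.ord_strictMono.comp beth_strictMono
  exact h.le_apply

theorem mk_le_beth (c : Cardinal.{0}) : c ≤ beth c.ord :=
  Cardinal.ord_le_ord.1 (le_ord_beth c.ord)

theorem card_le_beth (o : Ordinal.{0}) : o.card ≤ beth o := by
  have h := Ordinal.card_le_card (le_ord_beth o)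
  rwa [Cardinal.card_ord] at h

theorem le_omega_mul (b : Ordinal.{0}) : b ≤ omega0 * b := Ordinal.le_mul_right b omega0_pos

theorem omega_mul_succ (b : Ordinal.{0}) : omega0 * b + 1 + 1 ≤ omega0 * (b + 1) := by
  rw [mul_add, mul_one, add_assoc]
  gcongr
  exact_mod_cast (Ordinal.natCast_lt_omega0 2).le

theorem kap_aleph0 (b : Ordinal.{0}) : aleph0 ≤ kap b :=
  (aleph0_le_beth _).trans (Order.le_succ _)

/-- coordinates below `b` -/
abbrev Jb (b : Ordinal.{0}) : Type := b.ToType × ℕ × Bool

/-- the coordinate -/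
noncomputable def jj {b : Ordinal.{0}} (j : Jb b) : J := ((ToType.mk.symm j.1).1, j.2)

/-- the cardinal `beth (omega b + 1)` -/
noncomputable def lam (b : Ordinal.{0}) : Cardinal.{0} := beth (omega0 * b + 1)

/-- positions -/
abbrev X (b : Ordinal.{0}) : Type := Bool × Jb b × (lam b).ord.ToType

open Classical in
/-- the code of a condition -/
noncomputable def code {C : Type} {L : C → ℕ∞} (b : Ordinal.{0}) (p : Cn C L) : C × (X b → Bool) :=
  (p.c, fun x => if x.1 then decide ((ToType.mk.symm x.2.2).1 < p.len (jj x.2.1))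
    else p.bit (jj x.2.1) (ToType.mk.symm x.2.2).1)

theorem kap_le_lam {β b : Ordinal.{0}} (h : β < b) : (kap β).ord ≤ (lam b).ord := by
  rw [Cardinal.ord_le_ord]
  have h1 : omega0 * (β + 1) ≤ omega0 * b := by
    gcongr
    exact Order.add_one_le_of_lt h
  refine (Order.succ_le_succ (beth_mono h1)).trans ?_
  unfold lam
  rw [beth_add_one]
  exact Order.succ_le_of_lt (Cardinal.cantor _)

theorem rs_len {C : Type} {L : C → ℕ∞} {K : J → Prop} {p : Cn C L} (h : rs K p = p) {j : J}
    (hj : ¬ K j) : p.len j = 0 := by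
  have h1 : (rs K p).len j = 0 := by
    unfold rs
    exact if_neg hj
  rwa [h] at h1

theorem code_inj {C : Type} {L : C → ℕ∞} (b : Ordinal.{0}) (p q : Cn C L)
    (hp : rs (fun j => j.1 < b) p = p) (hq : rs (fun j => j.1 < b) q = q)
    (h : code b p = code b q) : p = q := by
  have h1 : p.c = q.c := congrArg Prod.fst h
  have h2 := congrArg Prod.snd h
  have hlen : ∀ j : J, j.1 < b → ∀ o, o < (lam b).ord →
      (o < p.len j ↔ o < q.len j) ∧ p.bit j o = q.bit j o := by
    intro j hj o ho
    have hj' : jj (b := b) (ToType.mk ⟨j.1, hj⟩, j.2) = j := by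
      unfold jj
      rw [OrderIso.symm_apply_apply]
    have ho' : ((ToType.mk.symm (ToType.mk (⟨o, ho⟩ : Set.Iio (lam b).ord))).1 : Ordinal.{0}) = o := by
      rw [OrderIso.symm_apply_apply]
    have h3 := congrFun h2 (true, (ToType.mk ⟨j.1, hj⟩, j.2), ToType.mk ⟨o, ho⟩)
    have h4 := congrFun h2 (false, (ToType.mk ⟨j.1, hj⟩, j.2), ToType.mk ⟨o, ho⟩)
    simp only [code, if_true, Bool.false_eq_true, if_false] at h3 h4
    rw [hj', ho'] at h3 h4
    exact ⟨by simpa using h3, h4⟩
  have hle : ∀ j : J, j.1 < b → p.len j = q.len j := by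
    intro j hj
    rcases lt_trichotomy (p.len j) (q.len j) with h3 | h3 | h3
    · have h4 := (hlen j hj (p.len j) ((p.lt j).trans_le (kap_le_lam hj))).1
      exact absurd (h4.2 h3) (lt_irrefl _)
    · exact h3
    · have h4 := (hlen j hj (q.len j) ((q.lt j).trans_le (kap_le_lam hj))).1
      exact absurd (h4.1 h3) (lt_irrefl _)
  refine Cn.ext' h1 (fun j => ?_) fun j o ho => ?_
  · by_cases hj : j.1 < b
    · exact hle j hj
    · rw [rs_len hp hj, rs_len hq hj]
  · by_cases hj : j.1 < b
    · exact (hlen j hj o ((ho.trans (p.lt j)).trans_le (kap_le_lam hj))).2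
    · rw [rs_len hp hj] at ho
      exact absurd ho (not_lt.2 zero_le)

theorem kap_holds : P_KAP := by
  classical
  refine ⟨fun β => isRegular_succ (aleph0_le_beth _), fun β γ h => ?_, fun ι a => ?_, fun C L hC b => ?_⟩
  · unfold kap
    refine Order.succ_le_succ (beth_mono ?_)
    gcongr
  · refine ⟨max a (Cardinal.mk ι).ord, le_max_left _ _, ?_⟩
    unfold kap
    rw [Order.lt_succ_iff]
    refine (mk_le_beth (Cardinal.mk ι)).trans (beth_mono ?_)
    refine (le_max_right a (Cardinal.mk ι).ord).trans ?_
    refine (le_self_add).trans (le_omega_mul _)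
  · by_cases hne : Nonempty C
    · obtain ⟨c0⟩ := hne
      refine ⟨C × (X b → Bool), fun k => if h : ∃ p : Cn C L, rs (fun j => j.1 < b) p = p ∧ code b p = k
        then h.choose else cz c0, fun p hp => ⟨code b p, ?_⟩, ?_⟩
      · have h : ∃ q : Cn C L, rs (fun j => j.1 < b) q = q ∧ code b q = code b p := ⟨p, hp, rfl⟩
        beta_reduce
        rw [dif_pos h]
        exact code_inj b _ _ h.choose_spec.1 hp h.choose_spec.2
      · rw [Cardinal.mk_prod, Cardinal.lift_id, Cardinal.lift_id]
        refine mul_lt_of_lt (kap_aleph0 b) ?_ ?_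
        · refine lt_of_le_of_lt Cardinal.mk_le_aleph0 ?_
          unfold kap
          rw [Order.lt_succ_iff]
          exact aleph0_le_beth _
        · have hlam : aleph0 ≤ lam b := aleph0_le_beth _
          have hbl : b.card ≤ lam b := by
            refine (card_le_beth b).trans (beth_mono ?_)
            exact (le_omega_mul b).trans le_self_add
          have h1 : Cardinal.mk (X b) ≤ lam b := by
            have h2 : Cardinal.mk (X b) = 2 * ((b.card * (aleph0 * 2)) * lam b) := by
              simp [X, Jb, Cardinal.mk_prod]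
            rw [h2]
            refine mul_le_of_le hlam ((Cardinal.natCast_lt_aleph0 (n := 2)).le.trans hlam)
              (mul_le_of_le hlam (mul_le_of_le hlam hbl (mul_le_of_le hlam hlam
                ((Cardinal.natCast_lt_aleph0 (n := 2)).le.trans hlam))) le_rfl)
          have h3 : Cardinal.mk (X b → Bool) = 2 ^ Cardinal.mk (X b) := by simp
          rw [h3]
          refine lt_of_le_of_lt (Cardinal.power_le_power_left two_ne_zero h1) ?_
          unfold kap lam
          rw [← beth_add_one, Order.lt_succ_iff]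
          exact beth_mono (omega_mul_succ b)
    · refine ⟨Empty, fun x => x.elim, fun p _ => absurd ⟨p.c⟩ hne, ?_⟩
      rw [Cardinal.mk_eq_zero]
      exact lt_of_lt_of_le Cardinal.aleph0_pos (kap_aleph0 b)

end Pool.Agent.W477.GM.Kap816
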